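import Pool.Agent.helper53.SP4.Spec

set_option autoImplicit false

/-! MP_561ff4, project SP4, row S4X: images of transvections. -/

namespace Pool.Agent.SP4

open Pool.Agent.GS

theorem S4X_Pl {F : Type} [Field F] (g : SG F) (a b : Fin 4 → F) (h : Pl a b) :
    Pl ((g : (Fin 4 → F) ≃ₗ[F] (Fin 4 → F)) a) ((g : (Fin 4 → F) ≃ₗ[F] (Fin 4 → F)) b) := by
  refine ⟨?_, ?_⟩
  · have h1 := h.1.map' ((g : (Fin 4 → F) ≃ₗ[F] (Fin 4 → F)) : (Fin 4 → F) →ₗ[F] (Fin 4 → F))
      (LinearEquiv.ker _)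
    have h2 : (⇑((g : (Fin 4 → F) ≃ₗ[F] (Fin 4 → F)) : (Fin 4 → F) →ₗ[F] (Fin 4 → F)) ∘ ![a, b]) =
        ![(g : (Fin 4 → F) ≃ₗ[F] (Fin 4 → F)) a, (g : (Fin 4 → F) ≃ₗ[F] (Fin 4 → F)) b] := by
      funext i
      fin_cases i <;> rfl
    rw [h2] at h1
    exact h1
  · have h3 := g.2 a b
    exact h3.trans h.2

theorem S4X (hS4B : S4B_stmt) (hS4W : S4W_stmt) (hS4I : S4I_stmt) (hS4C : S4C_stmt) : S4X_stmt := by
  intro F _ _ _ x hx
  obtain ⟨hBB, hBs, hBnd, hBl, hT, hA, hC, hconj, huniq, hTinj, hcent, hPl⟩ := hS4B F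
  obtain ⟨v0, t0, hv0, ht0, hno⟩ := hx
  obtain ⟨-, hW2, -, hW4, hW5⟩ := hS4W F
  have hBr : ∀ (u v w : Fin 4 → F) (c : F), B w (u + c • v) = B w u + c * B w v := by
    intro u v w c
    rw [hBs w, hBl, hBs u, hBs v]
  have hsq : t0 * t0 = 1 := by
    obtain ⟨t, h1, h2⟩ := hT v0
    have h3 : t = t0 := (huniq v0 v0 t t0).1 h1 ht0
    rw [← h3]
    exact h2
  have hxsq : x t0 * x t0 = 1 := by rw [← map_mul, hsq, map_one]
  have hx1 : x t0 ≠ 1 := by
    intro h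
    apply hno 0
    rw [h]
    intro w
    simp
  -- the element of order 3
  have key : ∃ a b, Pl a b ∧ IsA a b (x t0) := by
    rcases hS4I F (x t0) hxsq hx1 with ⟨v, _, h⟩ | h | ⟨a, b, hab, hc⟩
    · exact absurd h (hno v)
    · exact h
    · exfalso
      obtain ⟨e2, f2, f1, hG⟩ := hW2 v0 hv0
      obtain ⟨h1, h2, h3, h4, h5, h6⟩ := hG
      obtain ⟨p, hp, _⟩ := hT e2
      obtain ⟨q, hq, _⟩ := hT f2
      have hh : ∀ w, ((p * q : SG F) : (Fin 4 → F) ≃ₗ[F] (Fin 4 → F)) w =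
          w + B f2 w • f2 + (B e2 w + B f2 w) • e2 := by
        intro w
        have e1 : ((p * q : SG F) : (Fin 4 → F) ≃ₗ[F] (Fin 4 → F)) w =
            (p : (Fin 4 → F) ≃ₗ[F] (Fin 4 → F)) ((q : (Fin 4 → F) ≃ₗ[F] (Fin 4 → F)) w) := rfl
        rw [e1, hq w, hp, hBr, h2, mul_one]
      have hα : ∀ w, B e2 (((p * q : SG F) : (Fin 4 → F) ≃ₗ[F] (Fin 4 → F)) w) = B e2 w + B f2 w := by
        intro w
        rw [hh w, hBr, hBr, h2, hBB]
        ring
      have hβ : ∀ w, B f2 (((p * q : SG F) : (Fin 4 → F) ≃ₗ[F] (Fin 4 → F)) w) = B e2 w := by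
        intro w
        rw [hh w, hBr, hBr, hBs f2 e2, h2, hBB]
        have : B f2 w + B f2 w = 0 := CharTwo.add_self_eq_zero _
        linear_combination this
      have hcube : (p * q : SG F) ^ 3 = 1 := by
        apply Subtype.ext
        apply LinearEquiv.ext
        intro w
        have e3 : (((p * q : SG F) ^ 3 : SG F) : (Fin 4 → F) ≃ₗ[F] (Fin 4 → F)) w =
            ((p * q : SG F) : (Fin 4 → F) ≃ₗ[F] (Fin 4 → F))
              (((p * q : SG F) : (Fin 4 → F) ≃ₗ[F] (Fin 4 → F))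
                (((p * q : SG F) : (Fin 4 → F) ≃ₗ[F] (Fin 4 → F)) w)) := by
          rw [pow_succ, pow_two]
          rfl
        rw [e3, hh (((p * q : SG F) : (Fin 4 → F) ≃ₗ[F] (Fin 4 → F))
                (((p * q : SG F) : (Fin 4 → F) ≃ₗ[F] (Fin 4 → F)) w)), hα, hβ, hα,
          hh (((p * q : SG F) : (Fin 4 → F) ≃ₗ[F] (Fin 4 → F)) w), hα, hβ, hh w]
        have e4 : ((1 : SG F) : (Fin 4 → F) ≃ₗ[F] (Fin 4 → F)) w = w := rfl
        rw [e4]
        funext i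
        have two : (1 : F) + 1 = 0 := CharTwo.add_self_eq_zero _
        simp only [Pi.add_apply, Pi.smul_apply, smul_eq_mul]
        linear_combination ((B e2 w + B f2 w) * f2 i + (3 * B e2 w + 2 * B f2 w) * e2 i) * two
      have hfix : ((p * q : SG F) : (Fin 4 → F) ≃ₗ[F] (Fin 4 → F)) v0 = v0 := by
        rw [hh v0, hBs f2 v0, hBs e2 v0, h3, h4]
        simp
      have hcomm : (p * q) * t0 = t0 * (p * q) := by
        have e5 := ((hconj (p * q) t0 v0 v0).1 ht0)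
        rw [hfix] at e5
        have e6 := (huniq v0 v0 _ _).1 e5 ht0
        exact (mul_inv_eq_iff_eq_mul.1 e6)
      have hx3 : x (p * q) = 1 := by
        apply hS4C F a b (x t0) (x (p * q)) hab hc
        · rw [← map_mul, ← map_mul, hcomm]
        · rw [← map_pow, hcube, map_one]
      have h7 : (p * q : SG F) = 1 := by
        apply x.injective
        rw [hx3, map_one]
      have h8 := hh f2
      rw [h7, hBB, h2] at h8
      have e4 : ((1 : SG F) : (Fin 4 → F) ≃ₗ[F] (Fin 4 → F)) f2 = f2 := rfl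
      rw [e4] at h8
      have h9 : e2 = 0 := by
        simpa using h8
      rw [h9] at h2
      have h10 : B (0 : Fin 4 → F) f2 = 0 := by simp [B]
      rw [h10] at h2
      exact zero_ne_one h2
  obtain ⟨a, b, hab, hAab⟩ := key
  constructor
  · intro v t hv ht
    obtain ⟨g, hg⟩ := hW4 v0 v hv0 hv
    have e1 := (hconj g t0 v0 v0).1 ht0
    rw [hg] at e1
    have e2 : t = g * t0 * g⁻¹ := (huniq v v _ _).1 ht e1
    refine ⟨_, _, S4X_Pl (x g) a b hab, ?_⟩
    rw [e2, map_mul, map_mul, map_inv]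
    exact (hconj (x g) (x t0) a b).2.1 hAab
  · intro hxx a' b' t hab' ht
    obtain ⟨g, hg1, hg2⟩ := hW5 a b a' b' hab hab'
    have e1 := (hconj g (x t0) a b).2.1 hAab
    rw [hg1, hg2] at e1
    have e2 : t = g * x t0 * g⁻¹ := (huniq a' b' _ _).2.1 ht e1
    have hxx0 : x (x t0) = t0 := by
      have : (x * x) t0 = t0 := by rw [hxx]; rfl
      exact this
    refine ⟨((x g : SG F) : (Fin 4 → F) ≃ₗ[F] (Fin 4 → F)) v0, ?_, ?_⟩
    · intro h
      apply hv0
      apply ((x g : SG F) : (Fin 4 → F) ≃ₗ[F] (Fin 4 → F)).injective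
      rw [h, map_zero]
    · rw [e2, map_mul, map_mul, map_inv, hxx0]
      exact (hconj (x g) t0 v0 v0).1 ht0

end Pool.Agent.SP4
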